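import Mathlib

set_option autoImplicit false

/-!
Small gaps between ordinates and zeros of the derivative near the line: abstract statements.
-/

namespace Pool.Agent.N831.GA

open Complex Metric Filter Topology

/-- functions with nonnegative real part on the unit disc -/
def S_TR1 : Prop := ∀ p : ℂ → ℂ, DifferentiableOn ℂ p (ball 0 1) →
  (∀ z ∈ ball (0 : ℂ) 1, 0 ≤ (p z).re) →
  ∀ z ∈ ball (0 : ℂ) 1, ‖p z‖ * (1 - ‖z‖) ≤ ‖p 0‖ * (1 + ‖z‖) ∧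
    ((p 0).im = 0 → (p 0).re * (1 - ‖z‖) ≤ (p z).re * (1 + ‖z‖))

/-- functions with `0 ≤ Re z * Re f z` on a disc with centre on the imaginary axis -/
def S_TR2 : Prop := ∀ (f : ℂ → ℂ) (c : ℂ) (r : ℝ), 0 < r → c.re = 0 →
  AnalyticOnNhd ℂ f (closedBall c r) → (∀ z ∈ closedBall c r, 0 ≤ z.re * (f z).re) →
  (f c).re = 0 ∧ ∃ P : ℝ, 0 ≤ P ∧
    (∀ z ∈ ball c r, ‖f z - f c‖ * (r - ‖z - c‖) ^ 2 ≤ P * r * ‖z - c‖) ∧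
    (∀ z : ℂ, ‖z - c‖ = r / 2 → 2 * P ≤ 15 * ‖f z - f c‖) ∧
    2 * P ≤ 15 * (f (c + ((r / 2 : ℝ) : ℂ))).re

/-- a point where `F = G` near a zero of `F` -/
def S_D2 : Prop := ∀ (F G : ℂ → ℂ) (c : ℂ) (r M : ℝ), 0 < r → c.re = 0 →
  AnalyticOnNhd ℂ F (ball c r) → F c = 0 → (∀ z ∈ ball c r, 0 ≤ z.re * (F z).re) →
  (∀ y : ℝ, 0 < y → y < r → y / (y ^ 2 + r ^ 2) ≤ (F (c + (y : ℂ))).re) →
  DifferentiableOn ℂ G (ball c r) → (∀ z ∈ ball c r, ‖G z‖ ≤ M) → 100 * (M * r) ≤ 1 →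
  ∃ z ∈ ball c (r / 2), F z = G z

/-- bounds near the axis -/
def S_D1 : Prop := ∃ C : ℝ, 1 ≤ C ∧ ∀ (F : ℂ → ℂ) (c : ℂ) (δ A x : ℝ), 0 < δ → c.re = 0 →
  AnalyticOnNhd ℂ F (ball c δ) → (∀ z ∈ ball c δ, 0 ≤ z.re * (F z).re) →
  (∀ y : ℝ, 0 < y → y < δ → ‖F (c + (y : ℂ))‖ * y ≤ A) → 0 < x → x ≤ δ / 4 →
  ‖F (c + (x : ℂ)) - F c‖ * δ ^ 2 ≤ C * A * x ∧ ‖F c‖ * δ ≤ C * A ∧
    (F (c + (x : ℂ))).re * δ ^ 2 ≤ C * A * x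

/-- logarithm, with `log y = -∞` for `y ≤ 0` -/
noncomputable def lg (y : ℝ) : EReal := if 0 < y then ((Real.log y : ℝ) : EReal) else ⊥

/-- from the comparison of gaps and points to exponents -/
def S_EX : Prop := ∀ (γ : ℕ → ℝ) (Z : Set ℂ) (C T0 : ℝ), 1 ≤ C → 2 ≤ T0 →
  (∀ n m : ℕ, 1 ≤ n → n ≤ m → γ n ≤ γ m) → Tendsto γ atTop atTop →
  (∀ ε : ℝ, 0 < ε → ∀ᶠ n : ℕ in atTop, (γ n) ^ (1 - ε) ≤ n ∧ (n : ℝ) ≤ (γ n) ^ (1 + ε)) →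
  (∀ n : ℕ, 1 ≤ n → T0 ≤ γ n → C * (γ (n + 1) - γ n) * Real.log (γ n) ≤ 1 →
    ∃ s ∈ Z, |s.im - γ n| ≤ 1 ∧ s.re - 1 / 2 ≤ C * (γ (n + 1) - γ n) ^ 2 * Real.log (γ n)) →
  (∀ s ∈ Z, T0 ≤ s.im → C * (s.re - 1 / 2) * Real.log s.im ≤ 1 →
    ∃ n : ℕ, 1 ≤ n ∧ |γ n - s.im| ≤ 1 ∧
      (γ (n + 1) - γ n) ^ 2 ≤ C * (s.re - 1 / 2) * Real.log s.im) →
  ∀ a : ℝ, 0 ≤ a →
    (((-a : ℝ) : EReal) ≤ liminf (fun n : ℕ => lg (γ (n + 1) - γ n) / ((Real.log n : ℝ) : EReal)) atTop ↔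
      ∀ ε : ℝ, 0 < ε → ∃ T : ℝ, ∀ s ∈ Z, T ≤ s.im → s.im ^ (-(2 * a + ε)) < s.re - 1 / 2)

end Pool.Agent.N831.GA
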