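import Pool.Agent.N831.SP.C
import Pool.Agent.N831.GA.Stm

set_option autoImplicit false

/-! The logarithmic derivative of xi to the right of the line: the contribution of one zero. -/

namespace Pool.Agent.N831.GA

open Complex Filter Topology Polynomial Metric
open Pool.Agent.H24R2.JP Pool.Agent.Y22.LM

noncomputable section

/-- minimum modulus -/
lemma exists_zero {f : ℂ → ℂ} {c : ℂ} {r : ℝ} (hr : 0 < r) (hf : DifferentiableOn ℂ f (closedBall c r))
    (h : ∀ z ∈ sphere c r, ‖f c‖ < ‖f z‖) : ∃ z ∈ ball c r, f z = 0 := by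
  by_contra hcon
  push Not at hcon
  have hne : ∀ z ∈ closedBall c r, f z ≠ 0 := by
    intro z hz
    rcases (mem_closedBall.1 hz).lt_or_eq with h1 | h1
    · exact hcon z h1
    · have := h z h1
      intro h2
      rw [h2, norm_zero] at this
      exact absurd this (not_lt.2 (norm_nonneg _))
  have hd : DiffContOnCl ℂ (fun z => (f z)⁻¹) (ball c r) := by
    refine DifferentiableOn.diffContOnCl ?_
    rw [closure_ball c hr.ne']
    exact hf.inv hne
  have hc : c ∈ closedBall c r := mem_closedBall_self hr.le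
  have hsc : IsCompact (sphere c r) := isCompact_sphere c r
  have hsn : (sphere c r).Nonempty := NormedSpace.sphere_nonempty.2 hr.le
  obtain ⟨z0, hz0, hmin⟩ := hsc.exists_isMinOn hsn
    (f := fun z => ‖f z‖) ((hf.continuousOn.mono sphere_subset_closedBall).norm)
  have h1 := h z0 hz0
  have h0 : 0 < ‖f c‖ := norm_pos_iff.2 (hne c hc)
  have h2 := Complex.norm_le_of_forall_mem_frontier_norm_le (isBounded_ball) hd (C := ‖f z0‖⁻¹) (by
    intro z hz
    rw [frontier_ball c hr.ne'] at hz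
    rw [norm_inv]
    exact inv_anti₀ (h0.trans h1) (hmin hz)) (z := c) (subset_closure (mem_ball_self hr))
  rw [norm_inv] at h2
  exact absurd ((inv_le_inv₀ h0 (h0.trans h1)).1 h2) (not_le.2 h1)

lemma norm4 {b : ℂ} (hb0 : b.re = 0) (h t : ℝ) : ‖(h + t * I : ℂ) - b‖ ^ 4 = q b.re (t - b.im) h := by
  rw [← norm_pair]
  have e : ‖(-h + t * I : ℂ) - b‖ = ‖(h + t * I : ℂ) - b‖ := by
    rw [← Real.sqrt_sq (norm_nonneg ((-h + t * I : ℂ) - b)), ← Real.sqrt_sq (norm_nonneg ((h + t * I : ℂ) - b)),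
      ← Complex.normSq_eq_norm_sq, ← Complex.normSq_eq_norm_sq, Complex.normSq_apply, Complex.normSq_apply]
    congr 1
    simp [hb0]
  rw [e]; ring

lemma poly_root {p : ℂ[X]} {t h1 h2 : ℝ} {b : ℂ}
    (hsym : ∀ h : ℝ, ‖p.eval (-h + t * I : ℂ)‖ = ‖p.eval (h + t * I : ℂ)‖)
    (h0 : 0 ≤ h1) (h12 : h1 ≤ h2) (hA : ∀ a, a ∈ p.roots → a.re ^ 2 ≤ (t - a.im) ^ 2)
    (hb : b ∈ p.roots) (hb0 : b.re = 0) :
    ‖p.eval (h1 + t * I : ℂ)‖ * ‖(h2 + t * I : ℂ) - b‖ ≤ ‖p.eval (h2 + t * I : ℂ)‖ * ‖(h1 + t * I : ℂ) - b‖ := by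
  classical
  have h4 : (‖p.eval (h1 + t * I : ℂ)‖ * ‖(h2 + t * I : ℂ) - b‖) ^ 4 ≤
      (‖p.eval (h2 + t * I : ℂ)‖ * ‖(h1 + t * I : ℂ) - b‖) ^ 4 := by
    rw [mul_pow, mul_pow, norm_eval_pow4 hsym, norm_eval_pow4 hsym, norm4 hb0, norm4 hb0,
      ← Multiset.cons_erase hb, Multiset.map_cons, Multiset.map_cons, Multiset.prod_cons, Multiset.prod_cons]
    have h5 : ((p.roots.erase b).map fun a => q a.re (t - a.im) h1).prod ≤
        ((p.roots.erase b).map fun a => q a.re (t - a.im) h2).prod :=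
      Multiset.prod_map_le_prod_map₀ _ _ (fun a _ => q_nonneg _ _ _) fun a ha =>
        q_mono h0 h12 (Or.inl (hA a (Multiset.mem_of_mem_erase ha)))
    have h6 : 0 ≤ ‖p.leadingCoeff‖ ^ 4 * q b.re (t - b.im) h1 * q b.re (t - b.im) h2 :=
      mul_nonneg (mul_nonneg (by positivity) (q_nonneg _ _ _)) (q_nonneg _ _ _)
    have h7 := mul_le_mul_of_nonneg_left h5 h6
    linarith
  exact le_of_pow_le_pow_left₀ (by norm_num) (by positivity) h4

lemma hurwitz {p : ℕ → ℂ[X]} (hp1 : ∀ (N : ℕ) (z : ℂ), (p N).eval z = 0 → XX z = 0)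
    (hp2 : TendstoLocallyUniformly (fun (N : ℕ) (z : ℂ) => (p N).eval z) XX atTop) {b : ℂ} (hb : XX b = 0) :
    ∀ᶠ N in atTop, (p N).eval b = 0 := by
  have hX : AnalyticAt ℂ XX b := B1h.XX_diff.analyticAt b
  have hiso : ∀ᶠ z in 𝓝[≠] b, XX z ≠ 0 := by
    rcases hX.eventually_eq_zero_or_eventually_ne_zero with h | h
    · exact absurd (analyticOrderAt_eq_top.2 h) (XX_top b)
    · exact h
  rw [eventually_nhdsWithin_iff, Metric.eventually_nhds_iff_ball] at hiso
  obtain ⟨ε, hε, hiso⟩ := hiso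
  obtain ⟨r, hr, hrε⟩ : ∃ r : ℝ, 0 < r ∧ r < ε := ⟨ε / 2, by linarith, by linarith⟩
  have hne : ∀ z ∈ closedBall b r, z ≠ b → XX z ≠ 0 := fun z hz hzb =>
    hiso z (lt_of_le_of_lt (mem_closedBall.1 hz) hrε) hzb
  have hsc : IsCompact (sphere b r) := isCompact_sphere b r
  have hsn : (sphere b r).Nonempty := NormedSpace.sphere_nonempty.2 hr.le
  obtain ⟨z0, hz0, hmin⟩ := hsc.exists_isMinOn hsn
    (f := fun z => ‖XX z‖) (B1h.XX_diff.continuous.norm.continuousOn)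
  have hm : 0 < ‖XX z0‖ := norm_pos_iff.2 (hne z0 (sphere_subset_closedBall hz0) (by
    intro h
    rw [h, mem_sphere, dist_self] at hz0
    exact hr.ne hz0))
  have hu : TendstoUniformlyOn (fun (N : ℕ) (z : ℂ) => (p N).eval z) XX atTop (closedBall b r) :=
    (tendstoLocallyUniformlyOn_iff_tendstoUniformlyOn_of_compact (isCompact_closedBall b r)).1
      (hp2.tendstoLocallyUniformlyOn)
  have hu2 := Metric.tendstoUniformlyOn_iff.1 hu (‖XX z0‖ / 2) (by positivity)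
  filter_upwards [hu2] with N hN
  have h1 := hN b (mem_closedBall_self hr.le)
  rw [hb, dist_zero_left] at h1
  obtain ⟨z, hz, hz0'⟩ := exists_zero (f := fun z => (p N).eval z) hr
    ((p N).differentiable.differentiableOn) (by
      intro z hz
      have h2 := hN z (sphere_subset_closedBall hz)
      have h3 : ‖XX z0‖ ≤ ‖XX z‖ := hmin hz
      rw [dist_eq_norm] at h2
      have h4 := norm_sub_norm_le (XX z) ((p N).eval z)
      show ‖(p N).eval b‖ < ‖(p N).eval z‖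
      linarith)
  by_cases hzb : z = b
  · rw [← hzb]; exact hz0'
  · exact absurd (hp1 N z hz0') (hne z (ball_subset_closedBall hz) hzb)

/-- growth to the right, with one zero removed -/
theorem grow_root {t h1 h2 : ℝ} {b : ℂ} (h0 : 0 ≤ h1) (h12 : h1 ≤ h2)
    (hns : ∀ a : ℂ, XX a = 0 → a.re ^ 2 ≤ (t - a.im) ^ 2) (hb : XX b = 0) (hb0 : b.re = 0) :
    ‖XX (h1 + t * I : ℂ)‖ * ‖(h2 + t * I : ℂ) - b‖ ≤ ‖XX (h2 + t * I : ℂ)‖ * ‖(h1 + t * I : ℂ) - b‖ := by
  obtain ⟨p, hp1, hp2, hp3⟩ := xx_approx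
  have ht : ∀ z : ℂ, Tendsto (fun N => ‖(p N).eval z‖) atTop (𝓝 ‖XX z‖) := fun z =>
    ((hp2.tendstoLocallyUniformlyOn (s := Set.univ)).tendsto_at (Set.mem_univ z)).norm
  refine le_of_tendsto_of_tendsto ((ht _).mul_const _) ((ht _).mul_const _) ?_
  have hne : ∀ᶠ N in atTop, (p N) ≠ 0 := by
    obtain ⟨z, hz⟩ : ∃ z, XX z ≠ 0 := by
      by_contra hcon
      push Not at hcon
      exact XX_top 0 (analyticOrderAt_eq_top.2 (Eventually.of_forall hcon))
    have h3 := (ht z).eventually_ne (norm_ne_zero_iff.2 hz)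
    filter_upwards [h3] with N hN h4
    rw [h4] at hN
    simp at hN
  filter_upwards [hurwitz hp1 hp2 hb, hne] with N hN hN0
  refine poly_root (fun h => hp3 N h t) h0 h12 (fun a ha => hns a (hp1 N a ?_)) ?_ hb0
  · exact (Polynomial.mem_roots hN0).1 ha
  · exact (Polynomial.mem_roots hN0).2 hN

/-- growth to the right -/
theorem grow {t h1 h2 : ℝ} (h0 : 0 ≤ h1) (h12 : h1 ≤ h2)
    (hns : ∀ a : ℂ, XX a = 0 → a.re ^ 2 ≤ (t - a.im) ^ 2) :
    ‖XX (h1 + t * I : ℂ)‖ ≤ ‖XX (h2 + t * I : ℂ)‖ := by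
  obtain ⟨p, hp1, hp2, hp3⟩ := xx_approx
  have h3 := limit_ineq B1h.XX_diff hp1 hp2 (t := t) (fun N h => hp3 N h t) XX_top (h0 := 0) le_rfl h0 h12 ∅
    (fun a ha h4 _ => by
      have := hns a ha
      rw [sq_le_sq] at this
      exact absurd h4 (not_lt.2 this)) (fun a ha => by simp at ha)
  simpa using h3

lemma XX_ne {x t : ℝ} (hx : 0 < x) (hns : ∀ a : ℂ, XX a = 0 → a.re ^ 2 ≤ (t - a.im) ^ 2) :
    XX (x + t * I) ≠ 0 := by
  intro h
  have := hns _ h
  have e1 : (x + t * I : ℂ).re = x := by simp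
  have e2 : (x + t * I : ℂ).im = t := by simp
  rw [e1, e2, sub_self] at this
  nlinarith

/-- the logarithmic derivative of xi -/
def FF1 (z : ℂ) : ℂ := deriv XX z / XX z

theorem F_nonneg {x t : ℝ} (hx : 0 < x) (hns : ∀ a : ℂ, XX a = 0 → a.re ^ 2 ≤ (t - a.im) ^ 2) :
    0 ≤ (FF1 (x + t * I)).re := by
  refine SP.re_ge_of_right (B1h.XX_diff _) (XX_ne hx hns) ?_
  filter_upwards [self_mem_nhdsWithin] with y hy
  rw [zero_mul, Real.exp_zero, mul_one]
  exact grow hx.le (le_of_lt hy) hns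

theorem F_root {x t : ℝ} {b : ℂ} (hx : 0 < x) (hns : ∀ a : ℂ, XX a = 0 → a.re ^ 2 ≤ (t - a.im) ^ 2)
    (hb : XX b = 0) (hb0 : b.re = 0) :
    (1 / ((x + t * I : ℂ) - b)).re ≤ (FF1 (x + t * I)).re := by
  have hne : ∀ y : ℝ, 0 < y → (y + t * I : ℂ) - b ≠ 0 := by
    intro y hy h
    have := congrArg Complex.re h
    simp [hb0] at this
    linarith
  set z : ℂ := x + t * I with hz
  have hd : DifferentiableAt ℂ (fun w : ℂ => XX w / (w - b)) z :=
    (B1h.XX_diff z).div (by fun_prop) (hne x hx)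
  have h1 := SP.re_ge_of_right (f := fun w : ℂ => XX w / (w - b)) (σ := x) (t := t) (c := 0) hd
    (div_ne_zero (XX_ne hx hns) (hne x hx)) (by
      filter_upwards [self_mem_nhdsWithin] with y hy
      rw [zero_mul, Real.exp_zero, mul_one, norm_div, norm_div,
        div_le_div_iff₀ (norm_pos_iff.2 (hne x hx)) (norm_pos_iff.2 (hne y (lt_trans hx hy)))]
      exact grow_root hx.le (le_of_lt hy) hns hb hb0)
  have h2 : deriv (fun w : ℂ => XX w / (w - b)) z = (deriv XX z * (z - b) - XX z) / (z - b) ^ 2 := by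
    have h3 : HasDerivAt (fun w : ℂ => w - b) 1 z := (hasDerivAt_id z).sub_const b
    have h4 := ((B1h.XX_diff z).hasDerivAt).div h3 (hne x hx)
    rw [mul_one] at h4
    exact h4.deriv
  rw [← hz, h2] at h1
  have h5 : (deriv XX z * (z - b) - XX z) / (z - b) ^ 2 / (XX z / (z - b)) = FF1 z - 1 / (z - b) := by
    unfold FF1
    have e1 := XX_ne hx hns
    have e2 := hne x hx
    rw [← hz] at e1 e2
    field_simp
  rw [h5, Complex.sub_re] at h1
  linarith

end

end Pool.Agent.N831.GA
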