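import Pool.Agent.N831.GA.A
import Pool.Agent.H24R2.DZ.XB

set_option autoImplicit false

/-! Local facts near a height around which all zeros are on the line. -/

namespace Pool.Agent.N831.GA

open Complex Filter Topology Metric
open scoped ComplexConjugate
open Pool.Agent.H24R2.JP Pool.Agent.Y22.LM

noncomputable section

/-- the zeros of zeta near the height `t` are on the critical line -/
def Loc (t : ℝ) : Prop := ∀ s : ℂ, riemannZeta s = 0 → |s.im - t| ≤ 5 → s.re = 1 / 2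

lemma conj_deriv {X : ℂ → ℂ} (hs : ∀ z : ℂ, X (-(conj z)) = conj (X z)) (hd : Differentiable ℂ X) (z : ℂ) :
    deriv X (-(conj z)) = -(conj (deriv X z)) := by
  have e : X = (conj ∘ (fun w => X (-w)) ∘ conj : ℂ → ℂ) := by
    funext w
    simp only [Function.comp_apply]
    rw [hs, Complex.conj_conj]
  have h1 : HasDerivAt (fun w => X (-w)) (-deriv X (-(conj (-(conj z))))) (conj (-(conj z))) := by
    have h2 := (hd (-(conj (-(conj z))))).hasDerivAt
    have h3 : HasDerivAt (fun w : ℂ => -w) (-1) (conj (-(conj z))) := (hasDerivAt_id _).neg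
    exact (h2.comp (conj (-(conj z))) h3).congr_deriv (by ring)
  have h4 := h1.conj_conj
  rw [Complex.conj_conj] at h4
  have h5 : HasDerivAt X (conj (-deriv X (-(conj (-(conj z)))))) (-(conj z)) :=
    h4.congr_of_eventuallyEq (Filter.Eventually.of_forall fun w => congrFun e w)
  rw [h5.deriv]
  simp only [map_neg, Complex.conj_conj, neg_neg]

lemma XX_symm (z : ℂ) : XX (-(conj z)) = conj (XX z) := by
  rw [Zer.XX_even, B1h.XX_conj]

lemma F_symm (z : ℂ) : FF1 (-(conj z)) = -(conj (FF1 z)) := by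
  unfold FF1
  rw [conj_deriv XX_symm B1h.XX_diff, XX_symm, map_div₀, neg_div]

/-- no shadows -/
lemma ns_of_loc {t u : ℝ} (ht : 10 ≤ t) (h : Loc t) (hu : |u - t| ≤ 4) :
    ∀ a : ℂ, XX a = 0 → a.re ^ 2 ≤ (u - a.im) ^ 2 := by
  intro a ha
  have h1 := Zer.abs_re_le a ha
  rw [abs_le] at h1 hu
  by_cases h2 : |u - a.im| < 1 / 2
  · rw [abs_lt] at h2
    have him : 0 < a.im := by linarith
    have h3 := h (1 / 2 + a) ((XX_zero_iff him).1 ha) (by
      have : (1 / 2 + a : ℂ).im = a.im := by simp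
      rw [this, abs_le]
      constructor <;> linarith)
    have h4 : a.re = 0 := by
      have : (1 / 2 + a : ℂ).re = 1 / 2 + a.re := by simp
      linarith
    rw [h4]
    nlinarith [sq_nonneg (u - a.im)]
  · push Not at h2
    rw [sq_le_sq]
    refine le_trans ?_ h2
    rw [abs_le]
    exact ⟨by linarith, by linarith⟩

lemma re_zero_of_loc {t : ℝ} (ht : 10 ≤ t) (h : Loc t) {a : ℂ} (ha : XX a = 0) (hu : |a.im - t| ≤ 4) :
    a.re = 0 := by
  have := ns_of_loc ht h hu a ha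
  rw [sub_self] at this
  nlinarith [sq_nonneg a.re]

lemma mk (z : ℂ) : z = (z.re : ℂ) + z.im * I := by
  simp

lemma F_sign {t : ℝ} (ht : 10 ≤ t) (h : Loc t) {z : ℂ} (hz : |z.im - t| ≤ 4) :
    0 ≤ z.re * (FF1 z).re := by
  rcases lt_trichotomy z.re 0 with h1 | h1 | h1
  · have h2 : 0 ≤ (FF1 (-(conj z))).re := by
      have e := mk (-(conj z))
      have er : (-(conj z)).re = -z.re := by simp
      have ei : (-(conj z)).im = z.im := by simp
      rw [e, er, ei]
      exact F_nonneg (by linarith) (ns_of_loc ht h hz)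
    rw [F_symm] at h2
    simp only [Complex.neg_re, Complex.conj_re] at h2
    nlinarith
  · rw [h1, zero_mul]
  · have h2 : 0 ≤ (FF1 z).re := by
      rw [mk z]
      exact F_nonneg h1 (ns_of_loc ht h hz)
    positivity

/-- the log derivative of the gamma factor -/
def GG (z : ℂ) : ℂ := deriv HH z / HH z

lemma F_eq {z : ℂ} (hz : 0 < z.im) (h0 : XX z ≠ 0) :
    FF1 z = GG z + deriv riemannZeta (1 / 2 + z) / riemannZeta (1 / 2 + z) :=
  SP.zeta_split hz (fun h => h0 ((XX_zero_iff hz).2 h))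

theorem G_bd : ∃ K : ℝ, 1 ≤ K ∧ ∀ (t : ℝ) (z : ℂ), 400 ≤ t → |z.im - t| ≤ 5 → |z.re| ≤ 5 →
    0 < z.im ∧ ‖GG z‖ ≤ K * Real.log t ∧ 1 / 2 * Real.log t - K ≤ (GG z).re := by
  obtain ⟨K, hK, h⟩ := StirAux.bound1
  refine ⟨K + 1, by linarith, fun t z ht h1 h2 => ?_⟩
  have hl : 1 ≤ Real.log t := by
    rw [Real.le_log_iff_exp_le (by linarith)]
    have := Real.exp_one_lt_d9
    linarith
  have h3 : ‖z - I * t‖ ≤ t / 4 := by
    refine (Complex.norm_le_abs_re_add_abs_im _).trans ?_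
    have e1 : (z - I * t).re = z.re := by simp
    have e2 : (z - I * t).im = z.im - t := by simp
    rw [e1, e2]
    linarith
  obtain ⟨h4, h5⟩ := h t z ht h3
  have e : logDeriv HH z = GG z := rfl
  rw [e] at h5
  have hO : ‖(Om t : ℂ)‖ = Real.log t / 2 := by
    rw [Complex.norm_real, Real.norm_eq_abs, Om, abs_of_nonneg (by linarith)]
  refine ⟨h4, ?_, ?_⟩
  · have h6 := norm_add_le (GG z - (Om t : ℂ)) (Om t : ℂ)
    rw [sub_add_cancel, hO] at h6
    nlinarith
  · have h6 := (Complex.abs_re_le_norm (GG z - (Om t : ℂ))).trans h5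
    rw [Complex.sub_re, Complex.ofReal_re, Om] at h6
    have := (abs_le.1 h6).1
    linarith

/-- the log derivative of the gamma factor, shifted -/
def Gc (c z : ℂ) : ℂ := GG z - c

/-- the combination `ζ' + c ζ` -/
def Dc (c s : ℂ) : ℂ := deriv riemannZeta s + c * riemannZeta s

theorem Gc_bd (c : ℂ) : ∃ K : ℝ, 1 ≤ K ∧ ∀ (t : ℝ) (z : ℂ), 400 ≤ t → |z.im - t| ≤ 5 → |z.re| ≤ 5 →
    0 < z.im ∧ ‖Gc c z‖ ≤ K * Real.log t ∧ 1 / 2 * Real.log t - K ≤ (Gc c z).re := by
  obtain ⟨K, hK, h⟩ := G_bd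
  refine ⟨K + ‖c‖, by linarith [norm_nonneg c], fun t z ht h1 h2 => ?_⟩
  obtain ⟨h3, h4, h5⟩ := h t z ht h1 h2
  have hl : 1 ≤ Real.log t := by
    rw [Real.le_log_iff_exp_le (by linarith)]
    have := Real.exp_one_lt_d9
    linarith
  refine ⟨h3, ?_, ?_⟩
  · have h6 := norm_sub_le (GG z) c
    have h7 : ‖c‖ ≤ ‖c‖ * Real.log t := le_mul_of_one_le_right (norm_nonneg c) hl
    unfold Gc
    linarith
  · have h6 := (Complex.re_le_norm c)
    unfold Gc
    rw [Complex.sub_re]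
    linarith

lemma F_eqc {z : ℂ} (c : ℂ) (hz : 0 < z.im) (h0 : XX z ≠ 0) :
    FF1 z = Gc c z + Dc c (1 / 2 + z) / riemannZeta (1 / 2 + z) := by
  have h1 : riemannZeta (1 / 2 + z) ≠ 0 := fun h => h0 ((XX_zero_iff hz).2 h)
  rw [F_eq hz h0]
  unfold Gc Dc
  rw [add_div, mul_div_assoc, div_self h1]
  ring

lemma F_diff {z : ℂ} (h : XX z ≠ 0) : AnalyticAt ℂ FF1 z :=
  (B1h.XX_diff.analyticAt z).deriv.div (B1h.XX_diff.analyticAt z) h

/-- upper bound for the logarithmic derivative close to the line -/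
theorem F_up (h1 : S_TR1) : ∃ A T0 : ℝ, 1 ≤ A ∧ 400 ≤ T0 ∧ ∀ t : ℝ, T0 ≤ t → Loc t →
    ∀ y : ℝ, 0 < y → y ≤ 1 → ‖FF1 (t * I + y)‖ * y ≤ A * Real.log t := by
  obtain ⟨K, hK, hG⟩ := G_bd
  refine ⟨8 * (K + 1), 400, by linarith, le_rfl, fun t ht hL y hy hy1 => ?_⟩
  have hl : 1 ≤ Real.log t := by
    rw [Real.le_log_iff_exp_le (by linarith)]
    have := Real.exp_one_lt_d9
    linarith
  -- the base point
  have hns := fun (u : ℝ) (hu : |u - t| ≤ 4) => ns_of_loc (by linarith) hL hu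
  have hne : ∀ z : ℂ, 0 < z.re → |z.im - t| ≤ 4 → XX z ≠ 0 := by
    intro z hz hz2
    rw [mk z]
    exact XX_ne hz (hns _ hz2)
  have hb : ‖FF1 (4 + t * I)‖ ≤ (K + 1) * Real.log t := by
    have e1 : (4 + t * I : ℂ).re = 4 := by simp
    have e2 : (4 + t * I : ℂ).im = t := by simp
    obtain ⟨h3, h4, -⟩ := hG t (4 + t * I) ht (by rw [e2]; norm_num) (by rw [e1]; norm_num [abs_of_pos])
    rw [F_eq h3 (hne _ (by rw [e1]; norm_num) (by rw [e2]; norm_num))]
    have h5 := (Pool.Agent.H24R2.DZ.XBAux.z2 (s := 1 / 2 + (4 + t * I)) (by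
      have : (1 / 2 + (4 + t * I) : ℂ).re = 1 / 2 + 4 := by simp
      rw [this]; norm_num)).2
    rw [logDeriv_apply] at h5
    refine (norm_add_le _ _).trans ?_
    linarith
  -- the disc
  have him : ∀ u ∈ ball (0 : ℂ) 1, 0 < (4 + t * I + 4 * u : ℂ).re ∧ |(4 + t * I + 4 * u : ℂ).im - t| ≤ 4 := by
    intro u hu
    rw [mem_ball_zero_iff] at hu
    have h3 := Complex.abs_re_le_norm u
    have h4 := Complex.abs_im_le_norm u
    have e1 : (4 + t * I + 4 * u : ℂ).re = 4 + 4 * u.re := by simp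
    have e2 : (4 + t * I + 4 * u : ℂ).im = t + 4 * u.im := by simp
    rw [e1, e2]
    rw [abs_le] at h3 h4
    constructor
    · linarith [h3.1]
    · rw [abs_le]; constructor <;> linarith [h4.1, h4.2]
  have hp := h1 (fun u => FF1 (4 + t * I + 4 * u)) (by
    intro u hu
    obtain ⟨h3, h4⟩ := him u hu
    have h5 := (F_diff (hne _ h3 h4)).differentiableAt
    exact (DifferentiableAt.comp (f := fun u : ℂ => 4 + t * I + 4 * u) u h5 (by fun_prop)).differentiableWithinAt) (by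
    intro u hu
    obtain ⟨h3, h4⟩ := him u hu
    have h5 := F_sign (by linarith) hL h4
    exact nonneg_of_mul_nonneg_right h5 h3) (((-(4 - y) / 4 : ℝ) : ℂ)) (by
    rw [mem_ball_zero_iff, Complex.norm_real, Real.norm_eq_abs, abs_lt]
    constructor <;> linarith)
  have hn : ‖((-(4 - y) / 4 : ℝ) : ℂ)‖ = (4 - y) / 4 := by
    rw [Complex.norm_real, Real.norm_eq_abs, abs_of_nonpos (by linarith)]
    ring
  have h3 := hp.1
  rw [hn] at h3
  simp only [mul_zero, add_zero] at h3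
  have e : (4 + t * I + 4 * ((-(4 - y) / 4 : ℝ) : ℂ) : ℂ) = t * I + y := by push_cast; ring
  rw [e] at h3
  have h4 : 0 ≤ ‖FF1 (4 + t * I)‖ := norm_nonneg _
  nlinarith

end

end Pool.Agent.N831.GA
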