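import Pool.Agent.N831.GA.B

set_option autoImplicit false

/-! A zero of the derivative near a small gap. -/

namespace Pool.Agent.N831.GA

open Complex Filter Topology Metric
open scoped ComplexConjugate
open Pool.Agent.H24R2.JP Pool.Agent.Y22.LM

noncomputable section

lemma axis_zero {u : ℝ} (hu : 0 < u) : XX (u * I) = 0 ↔ riemannZeta (1 / 2 + u * I) = 0 :=
  XX_zero_iff (by simpa using hu)

/-- a critical point between two zeros -/
lemma rolle {a b : ℝ} (hab : a < b) (ha : XX (a * I) = 0) (hb : XX (b * I) = 0) :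
    ∃ c : ℝ, a < c ∧ c < b ∧ deriv XX (c * I) = 0 := by
  have hd : ∀ u : ℝ, HasDerivAt (fun x : ℝ => (XX (x * I)).re) (deriv XX (u * I) * I).re u := by
    intro u
    have h1 : HasDerivAt (fun w : ℂ => w * I) I (u : ℂ) := by
      simpa using (hasDerivAt_id (u : ℂ)).mul_const I
    have h2 := ((B1h.XX_diff (u * I)).hasDerivAt).comp (u : ℂ) h1
    have h3 : HasDerivAt (fun x : ℝ => XX (x * I)) (deriv XX (u * I) * I) u := h2.comp_ofReal
    exact (Complex.reCLM.hasFDerivAt (x := XX (u * I))).comp_hasDerivAt u h3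
  obtain ⟨c, hc, h⟩ := exists_hasDerivAt_eq_zero hab
    (f := fun x : ℝ => (XX (x * I)).re) (f' := fun x : ℝ => (deriv XX (x * I) * I).re)
    (fun u _ => (hd u).continuousAt.continuousWithinAt) (by simp only [ha, hb]) (fun u _ => hd u)
  refine ⟨c, hc.1, hc.2, ?_⟩
  apply Complex.ext
  · exact SP.XX_deriv_axis c
  · simp only [Complex.mul_re, Complex.I_re, Complex.I_im, mul_zero, mul_one, zero_sub, neg_eq_zero] at h
    exact h

lemma F_axis {z : ℂ} (h : z.re = 0) : (FF1 z).re = 0 := by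
  have e : -(conj z) = z := by
    apply Complex.ext
    · simp [h]
    · simp
  have h1 := F_symm z
  rw [e] at h1
  have h2 := congrArg Complex.re h1
  simp only [Complex.neg_re, Complex.conj_re] at h2
  linarith

lemma inv_re (x y : ℝ) : (1 / ((x : ℂ) + y * I)).re = x / (x ^ 2 + y ^ 2) := by
  rw [one_div, Complex.inv_re, Complex.normSq_apply]
  simp
  ring_nf

lemma F_root' {z : ℂ} {e : ℝ} (hx : 0 < z.re) (hns : ∀ a : ℂ, XX a = 0 → a.re ^ 2 ≤ (z.im - a.im) ^ 2)
    (he : XX (e * I) = 0) : z.re / (z.re ^ 2 + (z.im - e) ^ 2) ≤ (FF1 z).re := by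
  have h1 := F_root (x := z.re) (t := z.im) (b := e * I) hx hns he (by simp)
  rw [← mk z] at h1
  have e1 : z - e * I = (z.re : ℂ) + ((z.im - e : ℝ) : ℂ) * I := by
    apply Complex.ext <;> simp
  rw [e1, inv_re] at h1
  exact h1

/-- a zero of `F - G` to the right gives a zero of `ζ'` -/
lemma zero_of_eq {z : ℂ} (k : ℂ) (hz : 0 < z.im) (h0 : XX z ≠ 0) (h : FF1 z = Gc k z) :
    Dc k (1 / 2 + z) = 0 := by
  have h1 := F_eqc k hz h0
  rw [h] at h1
  have h2 : Dc k (1 / 2 + z) / riemannZeta (1 / 2 + z) = 0 := by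
    have := sub_eq_zero.2 h1
    linear_combination -this
  rcases div_eq_zero_iff.1 h2 with h3 | h3
  · exact h3
  · exact absurd ((XX_zero_iff hz).2 h3) h0

theorem dir2 (k : ℂ) (h2 : S_D2) : ∃ C T0 : ℝ, 1 ≤ C ∧ 400 ≤ T0 ∧ ∀ t a b : ℝ, T0 ≤ t → Loc t →
    |a - t| ≤ 1 → |b - t| ≤ 1 → a < b → riemannZeta (1 / 2 + a * I) = 0 → riemannZeta (1 / 2 + b * I) = 0 →
    (∀ u : ℝ, a < u → u < b → riemannZeta (1 / 2 + u * I) ≠ 0) → C * (b - a) * Real.log t ≤ 1 →
    ∃ s : ℂ, Dc k s = 0 ∧ a < s.im ∧ s.im < b ∧ 1 / 2 < s.re ∧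
      s.re - 1 / 2 ≤ C * (b - a) ^ 2 * Real.log t := by
  obtain ⟨K, hK, hG⟩ := Gc_bd k
  refine ⟨100 * K, max 400 (Real.exp (4 * K)), by linarith, le_max_left _ _, ?_⟩
  intro t a b ht hL ha hb hab hza hzb hno hC
  have ht4 : 400 ≤ t := (le_max_left _ _).trans ht
  have ht10 : 10 ≤ t := by linarith
  have hlog : 4 * K ≤ Real.log t := by
    rw [Real.le_log_iff_exp_le (by linarith)]
    exact (le_max_right _ _).trans ht
  rw [abs_le] at ha hb
  have ha0 : 0 < a := by linarith
  have hb0 : 0 < b := by linarith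
  have hXa := (axis_zero ha0).2 hza
  have hXb := (axis_zero hb0).2 hzb
  obtain ⟨c, hac, hcb, hc⟩ := rolle hab hXa hXb
  have hXc : XX (c * I) ≠ 0 := fun h => hno c hac hcb ((axis_zero (by linarith)).1 h)
  have hFc : FF1 (c * I) = 0 := by unfold FF1; rw [hc, zero_div]
  obtain ⟨r, e, hr, hra, hrb, hXe, hce⟩ : ∃ r e : ℝ, 0 < r ∧ r ≤ c - a ∧ r ≤ b - c ∧ XX (e * I) = 0 ∧
      (c - e) ^ 2 = r ^ 2 := by
    rcases le_total (c - a) (b - c) with h | h
    · exact ⟨c - a, a, by linarith, le_rfl, h, hXa, rfl⟩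
    · exact ⟨b - c, b, by linarith, h, le_rfl, hXb, by ring⟩
  have hr1 : r ≤ 1 := by linarith
  have hball : ∀ z ∈ ball ((c : ℂ) * I) r, |z.re| < r ∧ |z.im - c| < r := by
    intro z hz
    rw [mem_ball, dist_eq_norm] at hz
    have e1 : (z - c * I).re = z.re := by simp
    have e2 : (z - c * I).im = z.im - c := by simp
    have h3 := Complex.abs_re_le_norm (z - c * I)
    have h4 := Complex.abs_im_le_norm (z - c * I)
    rw [e1] at h3
    rw [e2] at h4
    exact ⟨lt_of_le_of_lt h3 hz, lt_of_le_of_lt h4 hz⟩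
  have him : ∀ z ∈ ball ((c : ℂ) * I) r, |z.im - t| ≤ 3 := by
    intro z hz
    have h3 := abs_lt.1 (hball z hz).2
    rw [abs_le]
    constructor <;> linarith [h3.1, h3.2]
  have hne : ∀ z ∈ ball ((c : ℂ) * I) r, XX z ≠ 0 := by
    intro z hz h0
    have h3 := re_zero_of_loc ht10 hL h0 ((him z hz).trans (by norm_num))
    have h4 := abs_lt.1 (hball z hz).2
    have h5 : z = (z.im : ℂ) * I := by
      apply Complex.ext
      · simp [h3]
      · simp
    rw [h5] at h0
    exact hno z.im (by linarith [h4.1]) (by linarith [h4.2])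
      ((axis_zero (by linarith [h4.1])).1 h0)
  have hGz : ∀ z ∈ ball ((c : ℂ) * I) r, 0 < z.im ∧ ‖Gc k z‖ ≤ K * Real.log t ∧
      1 / 2 * Real.log t - K ≤ (Gc k z).re := fun z hz =>
    hG t z ht4 ((him z hz).trans (by norm_num)) ((hball z hz).1.le.trans (by linarith))
  have hl0 : 0 < Real.log t := by linarith
  have hKr : 100 * (K * Real.log t * r) ≤ 1 := by
    have h3 : K * Real.log t * (2 * r) ≤ K * Real.log t * (b - a) :=
      mul_le_mul_of_nonneg_left (by linarith) (by positivity)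
    have h4 : 0 ≤ K * Real.log t * (b - a) := mul_nonneg (by positivity) (by linarith)
    nlinarith
  obtain ⟨z, hz, hzeq⟩ := h2 FF1 (Gc k) (c * I) r (K * Real.log t) hr (by simp)
    (fun z hz => F_diff (hne z hz)) hFc (fun z hz => F_sign ht10 hL ((him z hz).trans (by norm_num)))
    (by
      intro y hy hyr
      have e1 : ((c : ℂ) * I + y).re = y := by simp
      have e2 : ((c : ℂ) * I + y).im = c := by simp
      have h3 := F_root' (z := (c : ℂ) * I + y) (e := e) (by rw [e1]; exact hy)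
        (by rw [e2]; exact ns_of_loc ht10 hL (by rw [abs_le]; constructor <;> linarith)) hXe
      rw [e1, e2, hce] at h3
      exact h3)
    (fun z hz => ((StirAux.ld_diff (hGz z hz).1).sub_const k).differentiableWithinAt)
    (fun z hz => (hGz z hz).2.1) hKr
  have hz' : z ∈ ball ((c : ℂ) * I) r := ball_subset_ball (by linarith) hz
  obtain ⟨h3, h4, h5⟩ := hGz z hz'
  have h6 : 0 < (Gc k z).re := by linarith
  have h7 : 0 < z.re := by
    have h8 := F_sign ht10 hL ((him z hz').trans (by norm_num : (3 : ℝ) ≤ 4))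
    rw [hzeq] at h8
    rcases lt_trichotomy z.re 0 with h9 | h9 | h9
    · exact absurd h8 (not_le.2 (mul_neg_of_neg_of_pos h9 h6))
    · have := F_axis h9
      rw [hzeq] at this
      linarith
    · exact h9
  obtain ⟨h9, h10⟩ := hball z hz'
  rw [abs_lt] at h9 h10
  have e1 : (1 / 2 + z : ℂ).im = z.im := by simp
  have e2 : (1 / 2 + z : ℂ).re = 1 / 2 + z.re := by simp
  refine ⟨1 / 2 + z, zero_of_eq k h3 (hne z hz') hzeq, by rw [e1]; linarith, by rw [e1]; linarith,
    by rw [e2]; linarith, ?_⟩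
  rw [e2, add_sub_cancel_left]
  have h11 := F_root' (z := z) (e := a) h7 (ns_of_loc ht10 hL ((him z hz').trans (by norm_num))) hXa
  rw [hzeq] at h11
  have h12 := h11.trans ((Complex.re_le_norm _).trans h4)
  rw [div_le_iff₀ (by positivity)] at h12
  have h13 : z.re ^ 2 + (z.im - a) ^ 2 ≤ 2 * (b - a) ^ 2 := by
    have h14 : z.re ^ 2 ≤ (b - a) ^ 2 := pow_le_pow_left₀ h7.le (by linarith) 2
    have h15 : (z.im - a) ^ 2 ≤ (b - a) ^ 2 := pow_le_pow_left₀ (by linarith) (by linarith) 2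
    linarith
  have h16 : K * Real.log t * (z.re ^ 2 + (z.im - a) ^ 2) ≤ K * Real.log t * (2 * (b - a) ^ 2) :=
    mul_le_mul_of_nonneg_left h13 (by positivity)
  have h17 : 0 ≤ K * Real.log t * (b - a) ^ 2 := by positivity
  nlinarith

end

end Pool.Agent.N831.GA
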