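import Pool.Agent.N831.GA.C

set_option autoImplicit false

/-! Two zeros near a zero of the derivative which is close to the line. -/

namespace Pool.Agent.N831.GA

open Complex Filter Topology Metric
open scoped ComplexConjugate
open Pool.Agent.H24R2.JP Pool.Agent.Y22.LM

noncomputable section

/-- a simple zero of zeta gives a simple zero of xi -/
lemma simple_of {b : ℂ} (hb : 0 < b.im) (h0 : XX b = 0) (h1 : deriv riemannZeta (1 / 2 + b) ≠ 0) :
    deriv XX b ≠ 0 := by
  have hne : (1 / 2 + b : ℂ) ≠ 1 := SP.ne_one_of_im (by simpa using hb)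
  have h2 : XX =ᶠ[𝓝 b] fun w => HH w * (fun w : ℂ => riemannZeta (1 / 2 + w)) w := by
    have : ∀ᶠ w : ℂ in 𝓝 b, 0 < w.im := (isOpen_lt continuous_const Complex.continuous_im).mem_nhds hb
    filter_upwards [this] with w hw
    exact ZetaTask.part1 w hw
  have hd : DifferentiableAt ℂ (fun w : ℂ => riemannZeta (1 / 2 + w)) b := by
    have h3 : DifferentiableAt ℂ riemannZeta (1 / 2 + b) := differentiableAt_riemannZeta hne
    exact h3.comp b (by fun_prop)
  have h3 := ((HH_an hb).differentiableAt.hasDerivAt).mul hd.hasDerivAt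
  have h4 : deriv XX b = deriv HH b * riemannZeta (1 / 2 + b) + HH b * deriv (fun w : ℂ => riemannZeta (1 / 2 + w)) b :=
    (h3.congr_of_eventuallyEq h2).deriv
  rw [h4, (XX_zero_iff hb).1 h0, mul_zero, zero_add, deriv_comp_const_add]
  exact mul_ne_zero (HH_ne_zero hb) h1

theorem dir1 (k : ℂ) (h1 : S_TR1) (hD : S_D1) : ∃ C T0 : ℝ, 1 ≤ C ∧ 400 ≤ T0 ∧ ∀ s : ℂ, T0 ≤ s.im → Loc s.im →
    Dc k s = 0 → 1 / 2 < s.re → ∀ δ : ℝ, 0 < δ → δ ≤ 1 / 4 →
    C * (s.re - 1 / 2) * Real.log s.im < δ ^ 2 →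
    (∃ ρ : ℂ, riemannZeta ρ = 0 ∧ deriv riemannZeta ρ = 0 ∧ |ρ.im - s.im| < δ) ∨
    ∃ ρ ρ' : ℂ, ρ ≠ ρ' ∧ riemannZeta ρ = 0 ∧ riemannZeta ρ' = 0 ∧ |ρ.im - s.im| < δ ∧ |ρ'.im - s.im| < δ := by
  obtain ⟨K, hK, hG⟩ := Gc_bd k
  obtain ⟨A0, T1, hA0, hT1, hF⟩ := F_up h1
  obtain ⟨C1, hC1, hD1⟩ := hD
  set C2 : ℝ := K + 2 * C1 * (A0 + 1) with hC2
  have hC2p : 0 < C2 := by positivity
  refine ⟨8 * C1 * (A0 + 1) + 8 * C2 ^ 2, max T1 (Real.exp (8 * K)), ?_, hT1.trans (le_max_left _ _), ?_⟩
  · have : 1 ≤ C1 * (A0 + 1) := by nlinarith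
    have : 0 ≤ C2 ^ 2 := by positivity
    linarith
  intro s hs hL hds hre δ hδ hδ4 hsmall
  by_contra hcon
  push Not at hcon
  obtain ⟨hmul, htwo⟩ := hcon
  set t : ℝ := s.im with ht
  have ht4 : 400 ≤ t := hT1.trans ((le_max_left _ _).trans hs)
  have ht10 : 10 ≤ t := by linarith
  have hlog : 8 * K ≤ Real.log t := by
    rw [Real.le_log_iff_exp_le (by linarith)]
    exact (le_max_right _ _).trans hs
  have hl0 : 0 < Real.log t := by linarith
  have hl1 : 1 ≤ Real.log t := by linarith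
  obtain ⟨x, hx⟩ : ∃ x : ℝ, x = s.re - 1 / 2 := ⟨_, rfl⟩
  rw [← hx] at hsmall
  have hx0 : 0 < x := by linarith
  -- the position of `s`
  have hxδ : x < δ ^ 2 / 8 := by
    have h3 : 8 * x ≤ (8 * C1 * (A0 + 1) + 8 * C2 ^ 2) * x * Real.log t := by
      have h4 : 8 ≤ (8 * C1 * (A0 + 1) + 8 * C2 ^ 2) * Real.log t := by
        have h5 : 1 ≤ C1 * (A0 + 1) := by nlinarith
        have h6 : 0 ≤ C2 ^ 2 := by positivity
        nlinarith
      nlinarith
    linarith
  have hxd4 : x ≤ δ / 4 := by nlinarith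
  obtain ⟨z, hz⟩ : ∃ z : ℂ, z = s - 1 / 2 := ⟨_, rfl⟩
  have hzr : z.re = x := by rw [hz, hx]; simp
  have hzi : z.im = t := by rw [hz]; simp [ht]
  have hsz : s = 1 / 2 + z := by rw [hz]; ring
  have hzc : z = (t : ℂ) * I + (x : ℂ) := by
    apply Complex.ext
    · simp [hzr]
    · simp [hzi]
  have hXz : XX z ≠ 0 := by
    rw [mk z]
    exact XX_ne (by rw [hzr]; exact hx0) (ns_of_loc ht10 hL (by rw [hzi]; norm_num))
  have hzeq : FF1 z = Gc k z := by
    rw [F_eqc k (by rw [hzi]; linarith) hXz, ← hsz, hds, zero_div, add_zero]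
  obtain ⟨-, hGn, hGr⟩ := hG t z ht4 (by rw [hzi]; norm_num) (by rw [hzr, abs_of_pos hx0]; nlinarith)
  have hGr' : 3 / 8 * Real.log t ≤ (Gc k z).re := by linarith
  -- the zeros in the disc
  have hball : ∀ w ∈ ball ((t : ℂ) * I) δ, |w.re| < δ ∧ |w.im - t| < δ := by
    intro w hw
    rw [mem_ball, dist_eq_norm] at hw
    have e1 : (w - t * I).re = w.re := by simp
    have e2 : (w - t * I).im = w.im - t := by simp
    have h3 := Complex.abs_re_le_norm (w - t * I)
    have h4 := Complex.abs_im_le_norm (w - t * I)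
    rw [e1] at h3
    rw [e2] at h4
    exact ⟨lt_of_le_of_lt h3 hw, lt_of_le_of_lt h4 hw⟩
  have him : ∀ w ∈ ball ((t : ℂ) * I) δ, |w.im - t| ≤ 4 := fun w hw => (hball w hw).2.le.trans (by linarith)
  have hpos : ∀ w ∈ ball ((t : ℂ) * I) δ, 0 < w.im := by
    intro w hw
    have := (abs_lt.1 (hball w hw).2).1
    linarith
  have hFn : ∀ y : ℝ, 0 < y → y < δ → ‖FF1 (t * I + y)‖ * y ≤ A0 * Real.log t := fun y hy hy2 =>
    hF t ((le_max_left _ _).trans hs) hL y hy (by linarith)
  have hAlog : 0 ≤ A0 * Real.log t := by positivity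
  -- the contradiction
  by_cases hex : ∃ b ∈ ball ((t : ℂ) * I) δ, XX b = 0
  · obtain ⟨b, hb, hXb⟩ := hex
    have hb0 : b.re = 0 := re_zero_of_loc ht10 hL hXb (him b hb)
    have hbI : b = (b.im : ℂ) * I := by
      apply Complex.ext
      · simp [hb0]
      · simp
    have e3 : (1 / 2 + b : ℂ).im = b.im := by simp
    have hdb : deriv XX b ≠ 0 := simple_of (hpos b hb) hXb (fun h => by
      have := hmul (1 / 2 + b) ((XX_zero_iff (hpos b hb)).1 hXb) h
      rw [e3] at this
      exact absurd (hball b hb).2 (not_lt.2 this))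
    have huniq : ∀ w ∈ ball ((t : ℂ) * I) δ, w ≠ b → XX w ≠ 0 := by
      intro w hw hwb h0
      have h3 := htwo (1 / 2 + b) (1 / 2 + w) (fun h => hwb (add_left_cancel h).symm)
        ((XX_zero_iff (hpos b hb)).1 hXb) ((XX_zero_iff (hpos w hw)).1 h0) (by rw [e3]; exact (hball b hb).2)
      have e4 : (1 / 2 + w : ℂ).im = w.im := by simp
      rw [e4] at h3
      exact absurd (hball w hw).2 (not_lt.2 h3)
    -- divide by the zero
    obtain ⟨X1, hX1⟩ : ∃ X1 : ℂ → ℂ, X1 = dslope XX b := ⟨_, rfl⟩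
    have hX1d : Differentiable ℂ X1 := by
      rw [hX1]
      intro w
      have h3 : DifferentiableOn ℂ (dslope XX b) Set.univ :=
        (Complex.differentiableOn_dslope Filter.univ_mem).2 B1h.XX_diff.differentiableOn
      exact (h3 w (Set.mem_univ w)).differentiableAt Filter.univ_mem
    have hXeq : ∀ w, XX w = (w - b) * X1 w := by
      intro w
      have := sub_smul_dslope XX b w
      rw [hXb, sub_zero, smul_eq_mul] at this
      rw [hX1]
      exact this.symm
    have hX1b : X1 b ≠ 0 := by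
      rw [hX1, dslope_same]
      exact hdb
    have hX1ne : ∀ w ∈ ball ((t : ℂ) * I) δ, X1 w ≠ 0 := by
      intro w hw
      by_cases hwb : w = b
      · rw [hwb]; exact hX1b
      · intro h
        have := hXeq w
        rw [h, mul_zero] at this
        exact huniq w hw hwb this
    obtain ⟨F1, hF1⟩ : ∃ F1 : ℂ → ℂ, F1 = fun w => deriv X1 w / X1 w := ⟨_, rfl⟩
    have hsplit : ∀ w : ℂ, w ≠ b → X1 w ≠ 0 → FF1 w = 1 / (w - b) + F1 w := by
      intro w hwb hne
      have hwb' : w - b ≠ 0 := sub_ne_zero.2 hwb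
      have h3 : HasDerivAt (fun w : ℂ => w - b) 1 w := (hasDerivAt_id w).sub_const b
      have h4 := h3.mul (hX1d w).hasDerivAt
      have h5 : deriv XX w = 1 * X1 w + (w - b) * deriv X1 w := by
        have e : XX = (fun w : ℂ => w - b) * X1 := funext hXeq
        rw [e]
        exact h4.deriv
      unfold FF1
      rw [h5, hXeq w, hF1]
      field_simp
    have hF1pos : ∀ w : ℂ, 0 < w.re → |w.im - t| ≤ 4 → X1 w ≠ 0 → 0 ≤ (F1 w).re := by
      intro w hw hw2 hne
      have hwb : w ≠ b := fun h => by rw [h, hb0] at hw; exact lt_irrefl _ hw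
      have h3 := F_root' (z := w) (e := b.im) hw (ns_of_loc ht10 hL hw2) (by rw [← hbI]; exact hXb)
      have h4 := congrArg Complex.re (hsplit w hwb hne)
      rw [Complex.add_re] at h4
      have e1 : w - b = (w.re : ℂ) + ((w.im - b.im : ℝ) : ℂ) * I := by
        apply Complex.ext <;> simp [hb0]
      rw [e1, inv_re] at h4
      linarith
    have hcb : conj b = -b := by
      apply Complex.ext
      · simp [hb0]
      · simp
    have hF1sym : ∀ w : ℂ, w ≠ b → X1 w ≠ 0 → X1 (-(conj w)) ≠ 0 → F1 (-(conj w)) = -(conj (F1 w)) := by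
      intro w hwb hne hne'
      have hwb' : -(conj w) ≠ b := by
        intro h
        apply hwb
        have := congrArg (starRingEnd ℂ) h
        rw [map_neg, Complex.conj_conj, hcb] at this
        linear_combination -this
      have h3 := hsplit w hwb hne
      have h4 := hsplit _ hwb' hne'
      rw [F_symm, h3] at h4
      have e1 : -(conj w) - b = -(conj (w - b)) := by rw [map_sub, hcb]; ring
      rw [e1, map_add, map_div₀, map_one] at h4
      have e2 : (1 : ℂ) / -(conj (w - b)) = -(1 / conj (w - b)) := by rw [div_neg]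
      rw [e2] at h4
      linear_combination -h4
    have hconjball : ∀ w ∈ ball ((t : ℂ) * I) δ, -(conj w) ∈ ball ((t : ℂ) * I) δ := by
      intro w hw
      rw [mem_ball, dist_eq_norm] at hw ⊢
      have e1 : -(conj w) - (t : ℂ) * I = -(conj (w - t * I)) := by
        rw [map_sub, map_mul, Complex.conj_I, Complex.conj_ofReal]; ring
      rw [e1, norm_neg, Complex.norm_conj]
      exact hw
    obtain ⟨d1, d2, d3⟩ := hD1 F1 (t * I) δ ((A0 + 1) * Real.log t) x hδ (by simp)
      (by
        intro w hw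
        rw [hF1]
        exact (hX1d.analyticAt w).deriv.div (hX1d.analyticAt w) (hX1ne w hw))
      (by
        intro w hw
        rcases lt_trichotomy w.re 0 with h3 | h3 | h3
        · have h4 := hF1pos (-(conj w)) (by simpa using h3) (by simpa using him w hw) (hX1ne _ (hconjball w hw))
          have hwb : w ≠ b := fun h => by rw [h, hb0] at h3; exact lt_irrefl _ h3
          rw [hF1sym w hwb (hX1ne w hw) (hX1ne _ (hconjball w hw))] at h4
          simp only [Complex.neg_re, Complex.conj_re] at h4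
          nlinarith
        · rw [h3, zero_mul]
        · have h4 := hF1pos w h3 (him w hw) (hX1ne w hw)
          positivity)
      (by
        intro y hy hyδ
        have hyw : ((t : ℂ) * I + y) ∈ ball ((t : ℂ) * I) δ := by
          rw [mem_ball, dist_eq_norm, add_sub_cancel_left, Complex.norm_real, Real.norm_eq_abs, abs_of_pos hy]
          exact hyδ
        have hyb : ((t : ℂ) * I + y) ≠ b := by
          intro h
          have := congrArg Complex.re h
          simp [hb0] at this
          linarith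
        have h3 := hsplit _ hyb (hX1ne _ hyw)
        have h4 : F1 ((t : ℂ) * I + y) = FF1 (t * I + y) - 1 / (t * I + y - b) := by rw [h3]; ring
        have h5 : y ≤ ‖(t : ℂ) * I + y - b‖ := by
          have := Complex.abs_re_le_norm ((t : ℂ) * I + y - b)
          have e1 : ((t : ℂ) * I + y - b).re = y := by simp [hb0]
          rw [e1, abs_of_pos hy] at this
          exact this
        have h6 : ‖1 / ((t : ℂ) * I + y - b)‖ * y ≤ 1 := by
          rw [norm_div, norm_one, div_mul_eq_mul_div, one_mul, div_le_one (by linarith)]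
          exact h5
        rw [h4]
        have h7 := norm_sub_le (FF1 ((t : ℂ) * I + y)) (1 / ((t : ℂ) * I + y - b))
        have h8 := mul_le_mul_of_nonneg_right h7 hy.le
        have h9 := hFn y hy hyδ
        linarith)
      hx0 hxd4
    rw [← hzc] at d1 d3
    have hzb : z ≠ b := fun h => hXz (by rw [h]; exact hXb)
    have hzball : z ∈ ball ((t : ℂ) * I) δ := by
      rw [hzc, mem_ball, dist_eq_norm, add_sub_cancel_left, Complex.norm_real, Real.norm_eq_abs, abs_of_pos hx0]
      linarith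
    have hs3 := hsplit z hzb (hX1ne z hzball)
    -- the real part
    have hδ2 : 0 < δ ^ 2 := by positivity
    have r1 : (F1 z).re ≤ 1 / 8 * Real.log t := by
      have h3 : (F1 z).re * δ ^ 2 ≤ 1 / 8 * Real.log t * δ ^ 2 := by
        refine d3.trans ?_
        have h4 : C1 * ((A0 + 1) * Real.log t) * x ≤ 1 / 8 * ((8 * C1 * (A0 + 1) + 8 * C2 ^ 2) * x * Real.log t) := by
          have : 0 ≤ C2 ^ 2 * x * Real.log t := by positivity
          nlinarith
        have h5 : 1 / 8 * ((8 * C1 * (A0 + 1) + 8 * C2 ^ 2) * x * Real.log t) ≤ 1 / 8 * δ ^ 2 := by linarith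
        have h6 : 1 / 8 * δ ^ 2 ≤ 1 / 8 * Real.log t * δ ^ 2 := by nlinarith
        linarith
      exact le_of_mul_le_mul_right h3 hδ2
    have e1 : z - b = (z.re : ℂ) + ((z.im - b.im : ℝ) : ℂ) * I := by
      apply Complex.ext <;> simp [hb0]
    obtain ⟨R, hR⟩ : ∃ R : ℝ, R = ‖z - b‖ := ⟨_, rfl⟩
    have hR0 : 0 < R := by rw [hR]; exact norm_pos_iff.2 (sub_ne_zero.2 hzb)
    have hR2 : R ^ 2 = z.re ^ 2 + (z.im - b.im) ^ 2 := by
      rw [hR, ← Complex.normSq_eq_norm_sq, Complex.normSq_apply]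
      simp [hb0]
      ring
    have r2 : 1 / 4 * Real.log t ≤ x / R ^ 2 := by
      have h3 := congrArg Complex.re hs3
      rw [hzeq, Complex.add_re, e1, inv_re, ← hR2, hzr] at h3
      linarith
    rw [le_div_iff₀ (by positivity)] at r2
    -- the modulus
    have m1 : ‖F1 z‖ * δ ≤ 2 * C1 * (A0 + 1) * Real.log t := by
      have h3 : ‖F1 z‖ ≤ ‖F1 (t * I)‖ + ‖F1 z - F1 (t * I)‖ := by
        have := norm_add_le (F1 (t * I)) (F1 z - F1 (t * I))
        rwa [add_sub_cancel] at this
      have h4 : ‖F1 z - F1 (t * I)‖ * δ ≤ C1 * ((A0 + 1) * Real.log t) := by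
        have h5 : ‖F1 z - F1 (t * I)‖ * δ * δ ≤ C1 * ((A0 + 1) * Real.log t) * δ := by
          have h6 : C1 * ((A0 + 1) * Real.log t) * x ≤ C1 * ((A0 + 1) * Real.log t) * δ :=
            mul_le_mul_of_nonneg_left (by linarith) (by positivity)
          nlinarith
        exact le_of_mul_le_mul_right h5 hδ
      have h7 := mul_le_mul_of_nonneg_right h3 hδ.le
      linarith
    have m2 : δ ≤ R * (C2 * Real.log t) := by
      have h3 : 1 / (z - b) = Gc k z - F1 z := by rw [← hzeq, hs3]; ring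
      have h4 : ‖(1 : ℂ) / (z - b)‖ = 1 / R := by rw [norm_div, norm_one, ← hR]
      have h5 := norm_sub_le (Gc k z) (F1 z)
      rw [← h3, h4] at h5
      have h6 : 1 / R * δ ≤ C2 * Real.log t := by
        have h7 := mul_le_mul_of_nonneg_right h5 hδ.le
        have h8 : ‖Gc k z‖ * δ ≤ K * Real.log t := by
          have : ‖Gc k z‖ * δ ≤ K * Real.log t * 1 := mul_le_mul hGn (by linarith) hδ.le (by positivity)
          linarith
        rw [hC2]
        nlinarith
      rw [div_mul_eq_mul_div, one_mul, div_le_iff₀ hR0] at h6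
      linarith
    have m3 : δ ^ 2 ≤ R ^ 2 * (C2 ^ 2 * Real.log t ^ 2) := by
      have := pow_le_pow_left₀ hδ.le m2 2
      rwa [mul_pow, mul_pow] at this
    have m4 : R ^ 2 * (C2 ^ 2 * Real.log t ^ 2) ≤ 4 * C2 ^ 2 * x * Real.log t := by
      have h3 : 0 ≤ C2 ^ 2 * Real.log t := by positivity
      have h4 := mul_le_mul_of_nonneg_left r2 h3
      nlinarith
    have m5 : 4 * C2 ^ 2 * x * Real.log t ≤ (8 * C1 * (A0 + 1) + 8 * C2 ^ 2) * x * Real.log t := by
      have h3 : 0 ≤ x * Real.log t := by positivity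
      have h4 : 0 ≤ C1 * (A0 + 1) := by positivity
      have h5 : 0 ≤ C2 ^ 2 := by positivity
      nlinarith
    linarith
  · push Not at hex
    obtain ⟨-, -, d3⟩ := hD1 FF1 (t * I) δ ((A0 + 1) * Real.log t) x hδ (by simp)
      (fun w hw => F_diff (hex w hw)) (fun w hw => F_sign ht10 hL (him w hw))
      (fun y hy hyδ => (hFn y hy hyδ).trans (by linarith)) hx0 hxd4
    rw [← hzc, hzeq] at d3
    have h4 : C1 * ((A0 + 1) * Real.log t) * x ≤ 1 / 8 * ((8 * C1 * (A0 + 1) + 8 * C2 ^ 2) * x * Real.log t) := by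
      have : 0 ≤ C2 ^ 2 * x * Real.log t := by positivity
      nlinarith
    have h5 : 3 / 8 * Real.log t * δ ^ 2 ≤ (Gc k z).re * δ ^ 2 := mul_le_mul_of_nonneg_right hGr' (by positivity)
    have h6 : 0 < δ ^ 2 := by positivity
    nlinarith

end

end Pool.Agent.N831.GA
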