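import Pool.Agent.N831.GA.D
import Pool.Agent.N831.GA.Ord
import Pool.Agent.N831.SP.E
import Pool.Agent.N700.GA.TR1
import Pool.Agent.N933.GA.TR2
import Pool.Agent.N454.GA.D2
import Pool.Agent.N776.GA.D1
import Pool.Agent.N570.GA.EX

set_option autoImplicit false

/-! The exponent of the small gaps. -/

namespace Pool.Agent.N831.GA

open Complex Filter Topology Metric MeasureTheory Set
open Pool.Agent.N831.GA.Ord

noncomputable section

theorem TR1 : S_TR1 := Pool.Agent.N700.GA.TR1.t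
theorem TR2 : S_TR2 := Pool.Agent.N933.GA.TR2.t TR1
theorem D2 : S_D2 := Pool.Agent.N454.GA.D2.t TR2
theorem D1 : S_D1 := Pool.Agent.N776.GA.D1.t TR2
theorem EX : S_EX := Pool.Agent.N570.GA.EX.t

/-! ### Zeros off the line -/

lemma good_unbounded (T : ℝ) : ∃ t : ℝ, T ≤ t ∧ SP.Good t := by
  by_contra hcon
  push Not at hcon
  obtain ⟨X0, hX0⟩ := SP.exc_measure.exists_forall_of_atTop
  obtain ⟨T', hT', hT0⟩ : ∃ T' : ℝ, T ≤ T' ∧ 0 < T' := ⟨max T 1, le_max_left _ _, lt_of_lt_of_le one_pos (le_max_right _ _)⟩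
  set X : ℝ := max X0 (2 * T') with hX
  have h1 := hX0 X (le_max_left _ _)
  have h2 : Icc T' X ⊆ SP.Exc ∩ Icc 0 X := fun t ht => ⟨hcon t (hT'.trans ht.1), hT0.le.trans ht.1, ht.2⟩
  have h3 := (measure_mono (μ := volume) h2).trans h1
  rw [Real.volume_Icc] at h3
  have hX2 : 2 * T' ≤ X := le_max_right _ _
  rw [ENNReal.ofReal_le_ofReal_iff (by linarith)] at h3
  linarith

theorem left_inf (h : ∀ T : ℝ, ∃ ρ : ℂ, riemannZeta ρ = 0 ∧ ρ.re < 1 / 2 ∧ T ≤ ρ.im) (T : ℝ) :
    ∃ s : ℂ, deriv riemannZeta s = 0 ∧ s.re < 1 / 2 ∧ T ≤ s.im := by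
  obtain ⟨T1, hT1, g1⟩ := good_unbounded (max T 24)
  obtain ⟨ρ, hρ, hρ2, hρ3⟩ := h (T1 + 1)
  obtain ⟨T2, hT2, g2⟩ := good_unbounded ρ.im
  have h24 : 24 ≤ T1 := (le_max_right _ _).trans hT1
  obtain ⟨f1, f2, he⟩ := SP.good_equal h24 (by linarith) g1 g2
  by_contra hcon
  push Not at hcon
  have e1 : SP.ZS (deriv riemannZeta) T1 T2 = ∅ := by
    ext s
    simp only [Set.mem_empty_iff_false, iff_false]
    rintro ⟨a1, a2, a3, a4⟩
    have := hcon s a1 a2
    linarith [le_max_left T 24]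
  rw [e1, finsum_mem_empty, finsum_mem_eq_finite_toFinset_sum _ f1, Finset.sum_eq_zero_iff] at he
  have h3 := he ρ (by
    rw [Set.Finite.mem_toFinset]
    exact ⟨hρ, hρ2, by linarith, hT2⟩)
  have h4 := zmult_pos (s := ρ) (by linarith) hρ
  unfold zmult at h4
  omega

/-- a zero off the line or multiple, at large heights -/
def Deg : Prop := ∀ T : ℝ, ∃ ρ : ℂ, riemannZeta ρ = 0 ∧ T ≤ ρ.im ∧ (ρ.re ≠ 1 / 2 ∨ deriv riemannZeta ρ = 0)

lemma strip_zero {ρ : ℂ} (h : riemannZeta ρ = 0) (him : 1 ≤ ρ.im) : 0 < ρ.re ∧ ρ.re < 1 := by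
  have h1 : ρ.re < 1 := by
    by_contra hcon
    exact riemannZeta_ne_zero_of_one_le_re (not_lt.1 hcon) h
  refine ⟨?_, h1⟩
  by_contra hcon
  push Not at hcon
  have hne : ∀ n : ℕ, ρ ≠ -n := by
    intro n hn
    have := congrArg Complex.im hn
    simp at this
    linarith
  have hs1 : ρ ≠ 1 := by
    intro hn
    have := congrArg Complex.im hn
    simp at this
    linarith
  have h3 := riemannZeta_one_sub hne hs1
  rw [h, mul_zero] at h3
  exact riemannZeta_ne_zero_of_one_le_re (by simp; linarith) h3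

theorem deg_deriv (h : Deg) (T : ℝ) : ∃ s : ℂ, deriv riemannZeta s = 0 ∧ s.re ≤ 1 / 2 ∧ T ≤ s.im := by
  by_cases hm : ∀ T : ℝ, ∃ ρ : ℂ, riemannZeta ρ = 0 ∧ ρ.re < 1 / 2 ∧ T ≤ ρ.im
  · obtain ⟨s, h1, h2, h3⟩ := left_inf hm T
    exact ⟨s, h1, h2.le, h3⟩
  · push Not at hm
    obtain ⟨T1, hT1⟩ := hm
    obtain ⟨ρ, h1, h2, h3⟩ := h (max (max T T1) 1)
    have hT : T ≤ ρ.im := ((le_max_left _ _).trans (le_max_left _ _)).trans h2
    have hTT : T1 ≤ ρ.im := ((le_max_right _ _).trans (le_max_left _ _)).trans h2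
    have hone : 1 ≤ ρ.im := (le_max_right _ _).trans h2
    obtain ⟨h4, h5⟩ := strip_zero h1 hone
    have h6 : 1 / 2 ≤ ρ.re := by
      by_contra hcon
      push Not at hcon
      have := hT1 ρ h1 hcon
      linarith
    have h7 : ρ.re ≤ 1 / 2 := by
      by_contra hcon
      push Not at hcon
      have hz := zero_reflect h1 h4 h5 hone
      have him : (1 - (starRingEnd ℂ) ρ).im = ρ.im := by simp
      have hre : (1 - (starRingEnd ℂ) ρ).re = 1 - ρ.re := by simp
      have := hT1 _ hz (by rw [hre]; linarith)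
      rw [him] at this
      linarith
    have h8 : ρ.re = 1 / 2 := le_antisymm h7 h6
    rcases h3 with h3 | h3
    · exact absurd h8 h3
    · exact ⟨ρ, h3, h7, hT⟩

lemma large_index {N : ℕ} {T : ℝ} (hT : ord (N + 1) < T) {n : ℕ} (hn : 1 ≤ n) (h : T ≤ ord n) : N < n := by
  by_contra hcon
  push Not at hcon
  have := ord_mono hn (hcon.trans (Nat.le_succ N))
  linarith

theorem deg_gap (h : Deg) : ∃ᶠ n : ℕ in atTop, 1 ≤ n ∧ ord (n + 1) - ord n = 0 := by
  rw [Filter.frequently_atTop]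
  intro N
  obtain ⟨ρ, h1, h2, h3⟩ := h (max (ord (N + 1) + 1) 1)
  have hone : 1 ≤ ρ.im := (le_max_right _ _).trans h2
  have hN : ord (N + 1) + 1 ≤ ρ.im := (le_max_left _ _).trans h2
  obtain ⟨h4, h5⟩ := strip_zero h1 hone
  have hpos : 0 < ρ.im := by linarith
  have hj : ∀ t, t < ρ.im → NZ t + 2 ≤ NZ ρ.im := by
    intro t ht
    by_cases h6 : ρ.re = 1 / 2
    · have h7 : deriv riemannZeta ρ = 0 := by
        rcases h3 with h3 | h3
        · exact absurd h6 h3
        · exact h3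
      have h8 := jump_one h1 h4 h5 hpos t ht
      have h9 := zmult_two hpos h1 h7
      omega
    · have hz := zero_reflect h1 h4 h5 hone
      have him : (1 - (starRingEnd ℂ) ρ).im = ρ.im := by simp
      have hre : (1 - (starRingEnd ℂ) ρ).re = 1 - ρ.re := by simp
      exact jump_two h1 h4 h5 hpos hz (by rw [hre]; linarith) (by rw [hre]; linarith) him (by
        intro he
        have := congrArg Complex.re he
        rw [hre] at this
        apply h6
        linarith) t ht
  obtain ⟨n, hn, h6, h7⟩ := consecutive_of_jump hpos hj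
  refine ⟨n, (large_index (T := ρ.im) (by linarith) hn h6).le, hn, ?_⟩
  have := ord_mono hn (Nat.le_succ n)
  linarith

/-! ### The other case -/

section nondeg

variable {T1 : ℝ} (hT1 : ∀ ρ : ℂ, riemannZeta ρ = 0 → T1 ≤ ρ.im → ρ.re = 1 / 2 ∧ deriv riemannZeta ρ ≠ 0)

include hT1

lemma loc_of {t : ℝ} (ht : T1 + 5 ≤ t) : Loc t := by
  intro s hs h
  rw [abs_le] at h
  exact (hT1 s hs (by linarith)).1

lemma mult_one {ρ : ℂ} (h0 : riemannZeta ρ = 0) (h1 : T1 ≤ ρ.im) (h2 : 1 ≤ ρ.im) : zmult ρ = 1 := by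
  have hd := (hT1 ρ h0 h1).2
  have hs1 : ρ ≠ 1 := by intro h; rw [h] at h2; norm_num at h2
  have ha := zeta_an hs1
  have h3 : analyticOrderAt riemannZeta ρ = 1 := by
    have h4 := ha.analyticOrderAt_deriv_add_one
    have h5 : (fun z => riemannZeta z - riemannZeta ρ) = riemannZeta := by
      funext z; rw [h0, sub_zero]
    rw [h5, ha.deriv.analyticOrderAt_eq_zero.2 hd, zero_add] at h4
    exact h4.symm
  unfold zmult analyticOrderNatAt
  rw [h3]
  rfl

/-- at most one zero at each height -/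
lemma jump_le {t : ℝ} (h1 : T1 ≤ t) (h2 : 1 ≤ t) : ∃ t' : ℝ, t' < t ∧ NZ t ≤ NZ t' + 1 ∧
    (NZ t' < NZ t → riemannZeta (1 / 2 + t * I) = 0) := by
  classical
  obtain ⟨t', ht', he⟩ := NZ_left t
  refine ⟨t', ht', ?_⟩
  have hsub : {s : ℂ | riemannZeta s = 0 ∧ 0 < s.re ∧ s.re < 1 ∧ 0 < s.im ∧ s.im = t} ⊆ {(1 / 2 + t * I : ℂ)} := by
    rintro s ⟨a1, -, -, -, a5⟩
    rw [Set.mem_singleton_iff]
    have := (hT1 s a1 (by rw [a5]; exact h1)).1
    apply Complex.ext
    · simp [this]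
    · simp [a5]
  by_cases hz : riemannZeta (1 / 2 + t * I) = 0
  · have h3 : {s : ℂ | riemannZeta s = 0 ∧ 0 < s.re ∧ s.re < 1 ∧ 0 < s.im ∧ s.im = t} = {(1 / 2 + t * I : ℂ)} := by
      refine Set.Subset.antisymm hsub ?_
      rw [Set.singleton_subset_iff]
      refine ⟨hz, by simp, by simp; norm_num, by simp; linarith, by simp⟩
    rw [h3, finsum_mem_singleton, mult_one hT1 hz (by simp; exact h1) (by simp; exact h2)] at he
    exact ⟨he.le, fun _ => hz⟩
  · have h3 : {s : ℂ | riemannZeta s = 0 ∧ 0 < s.re ∧ s.re < 1 ∧ 0 < s.im ∧ s.im = t} = ∅ := by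
      ext s
      simp only [Set.mem_empty_iff_false, iff_false]
      intro hs
      have h4 := hsub hs
      rw [Set.mem_singleton_iff] at h4
      exact hz (by rw [← h4]; exact hs.1)
    rw [h3, finsum_mem_empty, add_zero] at he
    exact ⟨by omega, fun h => by omega⟩

lemma zero_at {n : ℕ} (hn : 1 ≤ n) (h1 : T1 ≤ ord n) (h2 : 1 ≤ ord n) : riemannZeta (1 / 2 + ord n * I) = 0 := by
  obtain ⟨t', ht', -, h⟩ := jump_le hT1 h1 h2
  refine h ?_
  have h3 := le_NZ_ord hn
  have h4 : ¬ n ≤ NZ t' := fun h5 => by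
    have := (ord_le_iff hn t').2 h5
    linarith
  omega

lemma gap_pos {n : ℕ} (hn : 1 ≤ n) (h1 : T1 ≤ ord n) (h2 : 1 ≤ ord n) : ord n < ord (n + 1) := by
  refine lt_of_le_of_ne (ord_mono hn (Nat.le_succ n)) fun he => ?_
  obtain ⟨t', ht', h3, -⟩ := jump_le hT1 h1 h2
  have h4 : n + 1 ≤ NZ (ord n) := by
    rw [he]
    exact le_NZ_ord (by omega)
  have h5 : ¬ n ≤ NZ t' := fun h6 => by
    have := (ord_le_iff hn t').2 h6
    linarith
  omega

omit hT1 in
lemma no_between {n : ℕ} (hn : 1 ≤ n) {u : ℝ} (h1 : ord n < u) (h2 : u < ord (n + 1)) :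
    riemannZeta (1 / 2 + u * I) ≠ 0 := by
  intro h0
  have hp := ord_pos hn
  have h3 := jump_one (s := 1 / 2 + u * I) h0 (by simp) (by simp; norm_num) (by simp; linarith) (ord n)
    (by simpa using h1)
  have h4 := zmult_pos (s := 1 / 2 + u * I) (by simp; linarith) h0
  have e : (1 / 2 + u * I : ℂ).im = u := by simp
  rw [e] at h3
  have h5 := le_NZ_ord hn
  have h6 := (ord_le_iff (by omega : 1 ≤ n + 1) u).2 (by omega)
  linarith

/-- a zero of the derivative is to the right of the line -/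
lemma deriv_right : ∃ T2 : ℝ, ∀ s : ℂ, deriv riemannZeta s = 0 → T2 ≤ s.im → 1 / 2 < s.re := by
  obtain ⟨K, hK, hG⟩ := G_bd
  refine ⟨max (max (T1 + 5) 400) (Real.exp (4 * K)), fun s hs him => ?_⟩
  have h400 : 400 ≤ s.im := ((le_max_right _ _).trans (le_max_left _ _)).trans him
  have hT5 : T1 + 5 ≤ s.im := ((le_max_left _ _).trans (le_max_left _ _)).trans him
  have hlog : 4 * K ≤ Real.log s.im := by
    rw [Real.le_log_iff_exp_le (by linarith)]
    exact (le_max_right _ _).trans him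
  by_contra hcon
  push Not at hcon
  have h0 : 0 ≤ s.re := by
    by_contra hneg
    push Not at hneg
    have h1 := (SP.far (t := s.im) (σ := s.re) (by linarith) hneg).2
    rw [Complex.re_add_im] at h1
    exact SP.deriv_ne_of_re h1 hs
  obtain ⟨z, hz⟩ : ∃ z : ℂ, z = s - 1 / 2 := ⟨_, rfl⟩
  have hzr : z.re = s.re - 1 / 2 := by rw [hz]; simp
  have hzi : z.im = s.im := by rw [hz]; simp
  have hsz : s = 1 / 2 + z := by rw [hz]; ring
  have hzp : 0 < z.im := by rw [hzi]; linarith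
  by_cases hX : Pool.Agent.H24R2.JP.XX z = 0
  · have h1 := (Pool.Agent.Y22.LM.XX_zero_iff hzp).1 hX
    rw [← hsz] at h1
    exact (hT1 s h1 (by linarith)).2 hs
  · have h1 : FF1 z = GG z := by
      rw [F_eq hzp hX, ← hsz, hs, zero_div, add_zero]
    obtain ⟨-, -, h2⟩ := hG s.im z h400 (by rw [hzi]; norm_num) (by
      rw [hzr, abs_le]; constructor <;> linarith)
    have h3 : 0 < (GG z).re := by linarith
    have h4 := F_sign (t := s.im) (z := z) (by linarith) (loc_of hT1 hT5) (by rw [hzi]; norm_num)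
    rw [h1] at h4
    rcases lt_trichotomy z.re 0 with h9 | h9 | h9
    · exact absurd h4 (not_le.2 (mul_neg_of_neg_of_pos h9 h3))
    · have := F_axis h9
      rw [h1] at this
      linarith
    · linarith

theorem exponent (a : ℝ) (ha : 0 ≤ a) :
    ((-a : ℝ) : EReal) ≤ liminf (fun n : ℕ => lg (ord (n + 1) - ord n) / ((Real.log n : ℝ) : EReal)) atTop ↔
      ∀ ε : ℝ, 0 < ε → ∃ T : ℝ, ∀ s ∈ {s : ℂ | deriv riemannZeta s = 0}, T ≤ s.im →
        s.im ^ (-(2 * a + ε)) < s.re - 1 / 2 := by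
  obtain ⟨C2, T2, hC2, hT2, h2⟩ := dir2 0 D2
  obtain ⟨C1, T3, hC1, hT3, h1⟩ := dir1 0 TR1 D1
  obtain ⟨T4, h4⟩ := deriv_right hT1
  obtain ⟨T5, hT5, h5⟩ := NZ_lower
  set T0 : ℝ := max (max (T1 + 5) T2) (max T3 T4) with hT0
  have m1 : T1 + 5 ≤ T0 := (le_max_left _ _).trans (le_max_left _ _)
  have m2 : T2 ≤ T0 := (le_max_right _ _).trans (le_max_left _ _)
  have m3 : T3 ≤ T0 := (le_max_left _ _).trans (le_max_right _ _)
  have m4 : T4 ≤ T0 := (le_max_right _ _).trans (le_max_right _ _)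
  have hD : ∀ s : ℂ, Dc 0 s = deriv riemannZeta s := by intro s; unfold Dc; ring
  refine EX ord {s : ℂ | deriv riemannZeta s = 0} (C2 + 32 * C1) T0 (by linarith) (by linarith)
    (fun n m hn hm => ord_mono hn hm) ord_tendsto ?_ ?_ ?_ a ha
  · intro ε hε
    obtain ⟨T6, h6⟩ := NZ_pow_bound ε hε
    filter_upwards [ord_tendsto.eventually_ge_atTop (max (max T5 1) (2 * T6)), eventually_ge_atTop 1,
      ord_tendsto.eventually_gt_atTop T5] with n hn hn1 hn5
    have k1 : 1 ≤ ord n := ((le_max_right _ _).trans (le_max_left _ _)).trans hn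
    have k2 : 2 * T6 ≤ ord n := (le_max_right _ _).trans hn
    constructor
    · have k3 : ord n ≤ n := by
        refine le_of_forall_lt_imp_le_of_dense (fun t ht => ?_)
        rcases le_or_gt t T5 with k4 | k4
        · have k5 : T5 < (n : ℝ) := by
            obtain ⟨u, hu1, hu2⟩ := exists_between hn5
            have k6 := h5 u hu1.le
            have k7 : ¬ n ≤ NZ u := fun k8 => by
              have := (ord_le_iff hn1 u).2 k8
              linarith
            have k9 : (NZ u : ℝ) < n := by exact_mod_cast not_le.1 k7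
            linarith
          linarith
        · have k6 := h5 t k4.le
          have k7 : ¬ n ≤ NZ t := fun k8 => by
            have := (ord_le_iff hn1 t).2 k8
            linarith
          have k9 : (NZ t : ℝ) < n := by exact_mod_cast not_le.1 k7
          linarith
      refine le_trans ?_ k3
      have := Real.rpow_le_rpow_of_exponent_le k1 (by linarith : 1 - ε ≤ 1)
      rwa [Real.rpow_one] at this
    · have k3 := h6 (ord n / 2) (by linarith)
      have e : 2 * (ord n / 2) = ord n := by ring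
      rw [e] at k3
      have k4 : (n : ℝ) ≤ NZ (ord n) := by exact_mod_cast le_NZ_ord hn1
      refine (k4.trans k3).trans ?_
      exact Real.rpow_le_rpow (by linarith) (by linarith) (by linarith)
  · intro n hn hn0 hC
    have hp : 400 ≤ ord n := hT2.trans (m2.trans hn0)
    have k1 : T1 ≤ ord n := by linarith
    have k2 := gap_pos hT1 hn k1 (by linarith)
    have hl : 1 ≤ Real.log (ord n) := by
      rw [Real.le_log_iff_exp_le (by linarith)]
      have := Real.exp_one_lt_d9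
      linarith
    have k3 : ord (n + 1) - ord n ≤ 1 := by
      have : (ord (n + 1) - ord n) * 1 ≤ (C2 + 32 * C1) * (ord (n + 1) - ord n) * Real.log (ord n) := by
        have q1 : (ord (n + 1) - ord n) * 1 ≤ (ord (n + 1) - ord n) * Real.log (ord n) :=
          mul_le_mul_of_nonneg_left hl (by linarith)
        have q2 : 1 * ((ord (n + 1) - ord n) * Real.log (ord n)) ≤ (C2 + 32 * C1) * ((ord (n + 1) - ord n) * Real.log (ord n)) :=
          mul_le_mul_of_nonneg_right (by linarith) (mul_nonneg (by linarith) (by linarith))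
        linarith
      linarith
    have k4 := zero_at hT1 hn k1 (by linarith)
    have k5 := zero_at hT1 (n := n + 1) (by omega) (by linarith) (by linarith)
    have k6 : 0 ≤ 32 * C1 * (ord (n + 1) - ord n) * Real.log (ord n) :=
      mul_nonneg (mul_nonneg (by linarith) (by linarith)) (by linarith)
    obtain ⟨s, s1, s2, s3, s4, s5⟩ := h2 (ord n) (ord n) (ord (n + 1)) (m2.trans hn0) (loc_of hT1 (m1.trans hn0))
      (by simp) (by rw [abs_of_pos (by linarith)]; exact k3) k2 k4 k5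
      (fun u hu1 hu2 => no_between hn hu1 hu2) (by nlinarith)
    rw [hD] at s1
    refine ⟨s, s1, by rw [abs_of_pos (by linarith)]; linarith, s5.trans ?_⟩
    have k7 : 0 ≤ 32 * C1 * (ord (n + 1) - ord n) ^ 2 * Real.log (ord n) :=
      mul_nonneg (mul_nonneg (by linarith) (sq_nonneg _)) (by linarith)
    nlinarith
  · intro s hs hs0 hC
    have hs' : deriv riemannZeta s = 0 := hs
    have hp : 400 ≤ s.im := hT2.trans (m2.trans hs0)
    have hre := h4 s hs' (m4.trans hs0)
    have hl : 1 ≤ Real.log s.im := by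
      rw [Real.le_log_iff_exp_le (by linarith)]
      have := Real.exp_one_lt_d9
      linarith
    obtain ⟨x, hx⟩ : ∃ x : ℝ, x = s.re - 1 / 2 := ⟨_, rfl⟩
    rw [← hx] at hC ⊢
    have hx0 : 0 < x := by linarith
    have hxl : 0 < x * Real.log s.im := by positivity
    have hC' : (C2 + 32 * C1) * (x * Real.log s.im) ≤ 1 := by linarith
    have hCx : C1 * (x * Real.log s.im) ≤ 1 / 32 := by nlinarith
    set δ : ℝ := Real.sqrt (2 * (C1 * (x * Real.log s.im))) with hδ
    have hδ2 : δ ^ 2 = 2 * (C1 * (x * Real.log s.im)) := Real.sq_sqrt (by positivity)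
    have hδ0 : 0 < δ := Real.sqrt_pos.2 (by positivity)
    have hδ4 : δ ≤ 1 / 4 := by
      rw [hδ, Real.sqrt_le_left (by norm_num)]
      linarith
    have hfin : ∀ u v : ℝ, |u - s.im| < δ → |v - s.im| < δ → (∃ n : ℕ, 1 ≤ n ∧ u ≤ ord n ∧ ord (n + 1) ≤ v) →
        ∃ n : ℕ, 1 ≤ n ∧ |ord n - s.im| ≤ 1 ∧ (ord (n + 1) - ord n) ^ 2 ≤ (C2 + 32 * C1) * x * Real.log s.im := by
      rintro u v hu hv ⟨n, hn, hn1, hn2⟩
      have k0 := ord_mono hn (Nat.le_succ n)
      rw [abs_lt] at hu hv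
      refine ⟨n, hn, ?_, ?_⟩
      · rw [abs_le]
        constructor <;> linarith [hu.1, hv.2]
      · have k1 : ord (n + 1) - ord n ≤ 2 * δ := by linarith [hu.1, hv.2]
        have k2 : (ord (n + 1) - ord n) ^ 2 ≤ (2 * δ) ^ 2 :=
          pow_le_pow_left₀ (by linarith) k1 2
        have k3 : (2 * δ) ^ 2 = 8 * (C1 * (x * Real.log s.im)) := by rw [mul_pow, hδ2]; ring
        rw [k3] at k2
        nlinarith
    rcases h1 s (m3.trans hs0) (loc_of hT1 (m1.trans hs0)) (by rw [hD]; exact hs') hre δ hδ0 hδ4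
      (by rw [hδ2, ← hx]; nlinarith) with ⟨ρ, r1, r2, r3⟩ | ⟨ρ, ρ', r0, r1, r2, r3, r4⟩
    · exfalso
      have := (abs_lt.1 r3).1
      exact (hT1 ρ r1 (by linarith)).2 r2
    · have q1 := (abs_lt.1 r3).1
      have q2 := (abs_lt.1 r4).1
      have p1 := (hT1 ρ r1 (by linarith)).1
      have p2 := (hT1 ρ' r2 (by linarith)).1
      have hne : ρ.im ≠ ρ'.im := fun h => r0 (Complex.ext (by rw [p1, p2]) h)
      rcases lt_or_gt_of_ne hne with h | h
      · exact hfin _ _ r3 r4 (consecutive_of_lt r1 (by rw [p1]; norm_num) (by rw [p1]; norm_num) (by linarith)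
          r2 (by rw [p2]; norm_num) (by rw [p2]; norm_num) h)
      · exact hfin _ _ r4 r3 (consecutive_of_lt r2 (by rw [p2]; norm_num) (by rw [p2]; norm_num) (by linarith)
          r1 (by rw [p1]; norm_num) (by rw [p1]; norm_num) h)

end nondeg

/-- the exponent of the small gaps -/
theorem main (a : ℝ) (ha : 0 ≤ a) :
    ((-a : ℝ) : EReal) ≤ liminf (fun n : ℕ => lg (ord (n + 1) - ord n) / ((Real.log n : ℝ) : EReal)) atTop ↔
      ∀ ε : ℝ, 0 < ε → ∃ T : ℝ, ∀ s : ℂ, deriv riemannZeta s = 0 → T ≤ s.im →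
        s.im ^ (-(2 * a + ε)) < s.re - 1 / 2 := by
  by_cases hdeg : Deg
  · constructor
    · intro h
      exfalso
      have h1 : liminf (fun n : ℕ => lg (ord (n + 1) - ord n) / ((Real.log n : ℝ) : EReal)) atTop ≤ ⊥ := by
        refine Filter.liminf_le_of_frequently_le' ?_
        refine ((deg_gap hdeg).and_eventually (eventually_ge_atTop 2)).mono ?_
        rintro n ⟨⟨hn, h2⟩, hn2⟩
        rw [h2]
        have h3 : lg 0 = ⊥ := by unfold lg; simp
        have h4 : 0 < Real.log n := Real.log_pos (by exact_mod_cast hn2)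
        rw [h3, EReal.bot_div_of_pos_ne_top (by exact_mod_cast h4) (EReal.coe_ne_top _)]
      exact absurd (h.trans h1) (not_le.2 (EReal.bot_lt_coe _))
    · intro h
      exfalso
      obtain ⟨T, hT⟩ := h 1 one_pos
      obtain ⟨s, h1, h2, h3⟩ := deg_deriv hdeg (max T 1)
      have h4 := hT s h1 ((le_max_left _ _).trans h3)
      have h5 : 0 < s.im := by linarith [(le_max_right T 1).trans h3]
      have h6 : 0 < s.im ^ (-(2 * a + 1)) := Real.rpow_pos_of_pos h5 _
      linarith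
  · unfold Deg at hdeg
    push Not at hdeg
    obtain ⟨T1, hT1⟩ := hdeg
    exact exponent (T1 := T1) (fun ρ h1 h2 => hT1 ρ h1 h2) a ha

end

end Pool.Agent.N831.GA
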